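import Mathlib
import Pool.Agent.Results.MP_6f811f_co.BalancedPrimePowers

set_option autoImplicit false

namespace Pool.Agent.Results.MP_6f811f_co.CubicThreshold

open SimpleGraph Finset Pool.Agent.Results.MP_6f811f_co.BalancedPrimePowers

/-- Extension of an injection by one more pair `(i, v)`. -/
def ext {s : ℕ} (i : Fin (s + 1)) (v : Fin (s + 2)) (f : Fin s ↪ Fin (s + 1)) :
    Fin (s + 1) ↪ Fin (s + 2) :=
  ⟨Fin.insertNth (α := fun _ => Fin (s + 2)) i v (fun j => v.succAbove (f j)), by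
    intro a b h
    rcases Fin.eq_self_or_eq_succAbove i a with ha | ⟨a', ha⟩
    · rcases Fin.eq_self_or_eq_succAbove i b with hb | ⟨b', hb⟩
      · rw [ha, hb]
      · rw [ha, hb, Fin.insertNth_apply_same, Fin.insertNth_apply_succAbove] at h
        exact absurd h.symm (Fin.succAbove_ne _ _)
    · rcases Fin.eq_self_or_eq_succAbove i b with hb | ⟨b', hb⟩
      · rw [ha, hb, Fin.insertNth_apply_same, Fin.insertNth_apply_succAbove] at h
        exact absurd h (Fin.succAbove_ne _ _)
      · rw [ha, hb, Fin.insertNth_apply_succAbove, Fin.insertNth_apply_succAbove] at h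
        rw [ha, hb, f.injective (Fin.succAbove_right_injective h)]⟩

theorem ext_same {s : ℕ} (i : Fin (s + 1)) (v : Fin (s + 2)) (f : Fin s ↪ Fin (s + 1)) :
    ext i v f i = v := by
  have h : ext i v f i =
      Fin.insertNth (α := fun _ => Fin (s + 2)) i v (fun j => v.succAbove (f j)) i := rfl
  rw [h, Fin.insertNth_apply_same]

theorem ext_succAbove {s : ℕ} (i : Fin (s + 1)) (v : Fin (s + 2)) (f : Fin s ↪ Fin (s + 1))
    (j : Fin s) : ext i v f (i.succAbove j) = v.succAbove (f j) := by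
  have h : ext i v f (i.succAbove j) =
      Fin.insertNth (α := fun _ => Fin (s + 2)) i v (fun j => v.succAbove (f j))
        (i.succAbove j) := rfl
  rw [h, Fin.insertNth_apply_succAbove]

/-- The injections which avoid the sets `H i`. -/
noncomputable def Av {s : ℕ} (H : Fin s → Finset (Fin (s + 1))) : Finset (Fin s ↪ Fin (s + 1)) :=
  univ.filter fun f => ∀ i, f i ∉ H i

theorem mem_Av {s : ℕ} {H : Fin s → Finset (Fin (s + 1))} {f : Fin s ↪ Fin (s + 1)} :
    f ∈ Av H ↔ ∀ i, f i ∉ H i := by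
  simp [Av]

/-- The arithmetic of the counting lemma. -/
theorem arith (s h e : ℕ) (h1 : 1 ≤ h) (h2 : h + e ≤ s + 2) (h3 : h = 1 → e = 0) :
    (s + 1) * (2 * (s + 2) - (h + (s + 1) + e)) ≤
      (s + 3 - h) * (2 * (s + 1) - ((s + 1) + e)) := by
  obtain ⟨p, hp⟩ : ∃ p, s + 3 = h + e + p := ⟨s + 3 - (h + e), by omega⟩
  obtain ⟨q, hq⟩ : ∃ q, s + 1 = e + q := ⟨s + 1 - e, by omega⟩
  have e1 : 2 * (s + 2) - (h + (s + 1) + e) = p := by omega
  have e2 : 2 * (s + 1) - ((s + 1) + e) = q := by omega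
  have e3 : s + 3 - h = e + p := by omega
  rw [e1, e2, e3, hq]
  rcases Nat.lt_or_ge h 2 with h4 | h4
  · have h5 : e = 0 := h3 (by omega)
    subst h5
    simp [mul_comm]
  · have h5 : p ≤ q := by omega
    have h6 : e * p ≤ e * q := Nat.mul_le_mul_left _ h5
    calc (e + q) * p = e * p + q * p := by ring
      _ ≤ e * q + q * p := by omega
      _ = (e + p) * q := by ring

/-- At least `s! (2 (s+1) - ∑ |H i|)` injections avoid nonempty sets `H i`. -/
theorem count (s : ℕ) : ∀ H : Fin (s + 1) → Finset (Fin (s + 1 + 1)), (∀ i, (H i).Nonempty) →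
    s.factorial * (2 * (s + 1) - ∑ i, (H i).card) ≤ (Av H).card := by
  classical
  induction s with
  | zero =>
    intro H hH
    have h1 : 1 ≤ (H 0).card := card_pos.2 (hH 0)
    have hS : ∑ i, (H i).card = (H 0).card := by simp
    rw [hS, Nat.factorial_zero, one_mul]
    rcases Nat.lt_or_ge (H 0).card 2 with h2 | h2
    · have h3 : ∃ c, c ∉ H 0 := by
        by_contra hall
        push Not at hall
        have h4 : (univ : Finset (Fin (0 + 1 + 1))) ⊆ H 0 := fun c _ => hall c
        have := card_le_card h4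
        rw [card_univ, Fintype.card_fin] at this
        omega
      obtain ⟨c, hc⟩ := h3
      have h5 : 1 ≤ (Av H).card := card_pos.2
        ⟨⟨fun _ => c, fun a b _ => Fin.ext (by have := a.2; have := b.2; omega)⟩, by
        rw [mem_Av]
        intro i
        have : i = 0 := Fin.ext (by have := i.2; simp only [Fin.val_zero]; omega)
        rw [this]
        exact hc⟩
      omega
    · omega
  | succ s ih =>
    intro H hH
    obtain ⟨i0, -, hmax⟩ := Finset.exists_max_image univ (fun i => (H i).card)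
      ⟨(0 : Fin (s + 1 + 1)), mem_univ _⟩
    have hsum : ∑ i, (H i).card = (H i0).card + ∑ j, (H (i0.succAbove j)).card :=
      Fin.sum_univ_succAbove _ i0
    have hrest : s + 1 ≤ ∑ j : Fin (s + 1), (H (i0.succAbove j)).card := by
      calc s + 1 = ∑ _j : Fin (s + 1), 1 := by simp
        _ ≤ _ := sum_le_sum fun j _ => card_pos.2 (hH _)
    have h1 : 1 ≤ (H i0).card := card_pos.2 (hH i0)
    obtain ⟨e, he⟩ : ∃ e, ∑ j : Fin (s + 1), (H (i0.succAbove j)).card = s + 1 + e :=
      ⟨_, (Nat.add_sub_cancel' hrest).symm⟩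
    have he0 : (H i0).card = 1 → e = 0 := by
      intro h
      have h2 : ∑ j : Fin (s + 1), (H (i0.succAbove j)).card ≤ ∑ _j : Fin (s + 1), 1 :=
        sum_le_sum fun j _ => by
          have := hmax (i0.succAbove j) (mem_univ _)
          omega
      simp only [sum_const, card_univ, Fintype.card_fin, smul_eq_mul, mul_one] at h2
      omega
    rcases Nat.lt_or_ge (s + 2) ((H i0).card + e) with hbig | hsmall
    · have : 2 * (s + 1 + 1) - ∑ i, (H i).card = 0 := by omega
      rw [this, mul_zero]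
      exact Nat.zero_le _
    let H' : Fin (s + 1 + 1 + 1) → Fin (s + 1) → Finset (Fin (s + 1 + 1)) := fun c j =>
      if ((univ : Finset (Fin (s + 1 + 1))).filter
        fun x => c.succAbove x ∈ H (i0.succAbove j)).Nonempty then
        (univ : Finset (Fin (s + 1 + 1))).filter fun x => c.succAbove x ∈ H (i0.succAbove j)
      else {0}
    have hH'1 : ∀ c j, (H' c j).Nonempty := by
      intro c j
      simp only [H']
      split_ifs with h
      · exact h
      · exact ⟨0, mem_singleton_self _⟩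
    have hH'2 : ∀ c j, (H' c j).card ≤ (H (i0.succAbove j)).card := by
      intro c j
      simp only [H']
      split_ifs with h
      · refine card_le_card_of_injOn (fun x => c.succAbove x) (fun x hx => ?_)
          (fun a _ b _ hab => Fin.succAbove_right_injective hab)
        simpa using hx
      · rw [card_singleton]
        exact card_pos.2 (hH _)
    have hH'3 : ∀ c j x, x ∉ H' c j → c.succAbove x ∉ H (i0.succAbove j) := by
      intro c j x hx hxH
      apply hx
      simp only [H']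
      have hmem : x ∈ (univ : Finset (Fin (s + 1 + 1))).filter
          fun x => c.succAbove x ∈ H (i0.succAbove j) := by simpa using hxH
      rw [if_pos ⟨x, hmem⟩]
      exact hmem
    have hT : ∑ c ∈ (H i0)ᶜ, (Av (H' c)).card ≤ (Av H).card := by
      rw [← card_sigma]
      refine card_le_card_of_injOn (fun x => ext i0 x.1 x.2) (fun x hx => ?_) ?_
      · have hx' := mem_sigma.1 (mem_coe.1 hx)
        refine mem_coe.2 (mem_Av.2 fun i => ?_)
        rcases Fin.eq_self_or_eq_succAbove i0 i with rfl | ⟨j, rfl⟩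
        · rw [ext_same]
          simpa using hx'.1
        · rw [ext_succAbove]
          exact hH'3 _ _ _ (mem_Av.1 hx'.2 j)
      · rintro ⟨c, f⟩ _ ⟨c', f'⟩ _ heq
        simp only at heq
        have h5 : c = c' := by
          have := congrArg (fun g => g i0) heq
          simpa [ext_same] using this
        subst h5
        have h6 : f = f' := by
          ext j
          have := congrArg (fun g => g (i0.succAbove j)) heq
          simp only [ext_succAbove] at this
          rw [Fin.succAbove_right_injective this]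
        rw [h6]
    have hlow : ∀ c ∈ (H i0)ᶜ, s.factorial * (2 * (s + 1) - (s + 1 + e)) ≤ (Av (H' c)).card := by
      intro c _
      refine le_trans (Nat.mul_le_mul_left _ ?_) (ih (H' c) (hH'1 c))
      have h7 : ∑ j, (H' c j).card ≤ s + 1 + e := by
        rw [← he]
        exact sum_le_sum fun j _ => hH'2 c j
      omega
    have hcard : ((H i0)ᶜ).card = s + 3 - (H i0).card := by
      rw [card_compl, Fintype.card_fin]
    have h8 := (Finset.card_nsmul_le_sum _ _ _ hlow).trans hT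
    rw [hcard, smul_eq_mul] at h8
    refine le_trans ?_ h8
    have h9 := arith s (H i0).card e h1 hsmall he0
    have h10 : ∑ i, (H i).card = (H i0).card + (s + 1) + e := by rw [hsum, he]; ring
    rw [h10]
    calc (s + 1).factorial * (2 * (s + 1 + 1) - ((H i0).card + (s + 1) + e))
        = s.factorial * ((s + 1) * (2 * (s + 2) - ((H i0).card + (s + 1) + e))) := by
          rw [Nat.factorial_succ]; ring
      _ ≤ s.factorial * ((s + 3 - (H i0).card) * (2 * (s + 1) - ((s + 1) + e))) :=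
          Nat.mul_le_mul_left _ h9
      _ = _ := by ring

/-- The sets of `2 s - 1` pairs which meet all rows. -/
def Bad (s : ℕ) : Finset (Finset (Fin s × Fin (s + 1))) := by
  classical
  exact ((univ : Finset (Fin s × Fin (s + 1))).powersetCard (2 * s - 1)).filter
    fun P => ∀ i, ∃ k, (i, k) ∈ P

theorem mem_Bad {s : ℕ} {P : Finset (Fin s × Fin (s + 1))} :
    P ∈ Bad s ↔ P.card = 2 * s - 1 ∧ ∀ i, ∃ k, (i, k) ∈ P := by
  classical
  simp [Bad]

theorem card_Bad (s : ℕ) : (Bad s).card ≤ (s * (s + 1)).choose (2 * s - 1) := by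
  classical
  unfold Bad
  refine (card_filter_le _ _).trans ?_
  rw [card_powersetCard, card_univ, Fintype.card_prod, Fintype.card_fin, Fintype.card_fin]

/-- A set of `2 s + 1` pairs which meets all `s + 1` rows is avoided by at least `s!` injections. -/
theorem avoid_many {s : ℕ} {P : Finset (Fin (s + 1) × Fin (s + 1 + 1))} (hP : P ∈ Bad (s + 1)) :
    s.factorial ≤
      ((univ : Finset (Fin (s + 1) ↪ Fin (s + 1 + 1))).filter fun f => ∀ i, (i, f i) ∉ P).card := by
  classical
  obtain ⟨h1, h2⟩ := mem_Bad.1 hP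
  have h3 := count s (fun i => univ.filter fun k => (i, k) ∈ P) (fun i => by
    obtain ⟨k, hk⟩ := h2 i
    exact ⟨k, by simpa using hk⟩)
  have h4 : ∑ i : Fin (s + 1), ((univ : Finset (Fin (s + 1 + 1))).filter
      fun k => (i, k) ∈ P).card = P.card := by
    calc ∑ i : Fin (s + 1), ((univ : Finset (Fin (s + 1 + 1))).filter
          fun k => (i, k) ∈ P).card
        = ∑ i : Fin (s + 1), ∑ k : Fin (s + 1 + 1), (if (i, k) ∈ P then 1 else 0) :=
          sum_congr rfl fun i _ => card_filter _ _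
      _ = ∑ p : Fin (s + 1) × Fin (s + 1 + 1), (if p ∈ P then 1 else 0) :=
          (Fintype.sum_prod_type' (fun i k => if (i, k) ∈ P then 1 else 0)).symm
      _ = ((univ : Finset (Fin (s + 1) × Fin (s + 1 + 1))).filter (· ∈ P)).card :=
          (card_filter _ _).symm
      _ = P.card := by rw [filter_mem_eq_inter, univ_inter]
  rw [h4, h1] at h3
  have h5 : 2 * (s + 1) - (2 * (s + 1) - 1) = 1 := by omega
  rw [h5, mul_one] at h3
  refine h3.trans (card_le_card fun f hf => ?_)
  have h6 := mem_Av.1 hf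
  simp only [mem_filter, mem_univ, true_and] at h6 ⊢
  exact h6

theorem card_emb (s : ℕ) : Fintype.card (Fin (s + 1) ↪ Fin (s + 1 + 1)) =
    (s + 1) * (s + 2) * s.factorial := by
  rw [Fintype.card_embedding_eq, Fintype.card_fin, Fintype.card_fin]
  have h := Nat.factorial_mul_descFactorial (n := s + 1 + 1) (k := s + 1) (by omega)
  have h1 : s + 1 + 1 - (s + 1) = 1 := by omega
  rw [h1, Nat.factorial_one, one_mul] at h
  rw [h, Nat.factorial_succ, Nat.factorial_succ]
  ring

/-- One greedy step. -/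
theorem greedy_step {s : ℕ} (R : Finset (Finset (Fin (s + 1) × Fin (s + 1 + 1))))
    (hR : ∀ P ∈ R, P ∈ Bad (s + 1)) :
    ∃ f : Fin (s + 1) ↪ Fin (s + 1 + 1),
      ((s + 1) * (s + 2)) * (R.filter fun P => ∃ i, (i, f i) ∈ P).card ≤
        ((s + 1) * (s + 2) - 1) * R.card := by
  classical
  by_contra hcon
  push Not at hcon
  have hK : 1 ≤ (s + 1) * (s + 2) := Nat.mul_pos (by omega) (by omega)
  have h1 : ∀ f : Fin (s + 1) ↪ Fin (s + 1 + 1),
      (s + 1) * (s + 2) * (R.filter fun P => ¬ ∃ i, (i, f i) ∈ P).card < R.card := by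
    intro f
    have h2 := hcon f
    have h3 := card_filter_add_card_filter_not (s := R) (fun P => ∃ i, (i, f i) ∈ P)
    have h4 : (s + 1) * (s + 2) * R.card =
        ((s + 1) * (s + 2) - 1) * R.card + R.card := by
      obtain ⟨k, hk⟩ : ∃ k, (s + 1) * (s + 2) = k + 1 := ⟨_, (Nat.sub_add_cancel hK).symm⟩
      rw [hk, Nat.add_sub_cancel]
      ring
    have h5 : (s + 1) * (s + 2) * (R.filter fun P => ∃ i, (i, f i) ∈ P).card +
        (s + 1) * (s + 2) * (R.filter fun P => ¬ ∃ i, (i, f i) ∈ P).card =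
        (s + 1) * (s + 2) * R.card := by
      rw [← Nat.mul_add, h3]
    omega
  have hne : (univ : Finset (Fin (s + 1) ↪ Fin (s + 1 + 1))).Nonempty :=
    ⟨⟨Fin.castSucc, Fin.castSucc_injective _⟩, mem_univ _⟩
  have h6 := sum_lt_sum_of_nonempty hne (fun f _ => h1 f)
  rw [← mul_sum, sum_const, card_univ, card_emb, smul_eq_mul] at h6
  have h7 : ∑ f : Fin (s + 1) ↪ Fin (s + 1 + 1), (R.filter fun P => ¬ ∃ i, (i, f i) ∈ P).card =
      ∑ P ∈ R, ((univ : Finset (Fin (s + 1) ↪ Fin (s + 1 + 1))).filter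
        fun f => ∀ i, (i, f i) ∉ P).card := by
    simp only [card_filter]
    rw [sum_comm]
    refine sum_congr rfl fun P _ => sum_congr rfl fun f _ => ?_
    by_cases h : ∃ i, (i, f i) ∈ P
    · rw [if_neg (not_not.2 h), if_neg]
      push Not
      exact h
    · rw [if_pos h, if_pos]
      push Not at h
      exact h
  have h8 : R.card * s.factorial ≤ ∑ P ∈ R,
      ((univ : Finset (Fin (s + 1) ↪ Fin (s + 1 + 1))).filter
        fun f => ∀ i, (i, f i) ∉ P).card := by
    have := Finset.card_nsmul_le_sum R (fun P =>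
      ((univ : Finset (Fin (s + 1) ↪ Fin (s + 1 + 1))).filter
        fun f => ∀ i, (i, f i) ∉ P).card) s.factorial (fun P hP => avoid_many (hR P hP))
    simpa using this
  rw [h7] at h6
  have h9 : (s + 1) * (s + 2) * (R.card * s.factorial) ≤ (s + 1) * (s + 2) * _ :=
    Nat.mul_le_mul_left _ h8
  have h10 : (s + 1) * (s + 2) * (R.card * s.factorial) =
      (s + 1) * (s + 2) * s.factorial * R.card := by ring
  omega

/-- The greedy family. -/
theorem greedy (s M : ℕ) : ∃ F : Finset (Fin (s + 1) ↪ Fin (s + 1 + 1)), F.card ≤ M ∧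
    ((s + 1) * (s + 2)) ^ M *
      ((Bad (s + 1)).filter fun P => ∀ f ∈ F, ∃ i, (i, f i) ∈ P).card ≤
      ((s + 1) * (s + 2) - 1) ^ M * (Bad (s + 1)).card := by
  classical
  induction M with
  | zero => exact ⟨∅, by simp, by simp⟩
  | succ M ih =>
    obtain ⟨F, hF1, hF2⟩ := ih
    obtain ⟨f, hf⟩ := greedy_step ((Bad (s + 1)).filter fun P => ∀ f ∈ F, ∃ i, (i, f i) ∈ P)
      (fun P hP => (mem_filter.1 hP).1)
    refine ⟨insert f F, (card_insert_le _ _).trans (by omega), ?_⟩
    have h1 : ((Bad (s + 1)).filter fun P => ∀ g ∈ insert f F, ∃ i, (i, g i) ∈ P) =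
        ((Bad (s + 1)).filter fun P => ∀ f ∈ F, ∃ i, (i, f i) ∈ P).filter
          fun P => ∃ i, (i, f i) ∈ P := by
      ext P
      simp only [mem_filter, mem_insert, forall_eq_or_imp]
      tauto
    rw [h1]
    calc ((s + 1) * (s + 2)) ^ (M + 1) * _
        = ((s + 1) * (s + 2)) ^ M * (((s + 1) * (s + 2)) * _) := by rw [pow_succ, mul_assoc]
      _ ≤ ((s + 1) * (s + 2)) ^ M * (((s + 1) * (s + 2) - 1) * _) := Nat.mul_le_mul_left _ hf
      _ = ((s + 1) * (s + 2) - 1) * (((s + 1) * (s + 2)) ^ M * _) := by ring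
      _ ≤ ((s + 1) * (s + 2) - 1) * (((s + 1) * (s + 2) - 1) ^ M * _) :=
          Nat.mul_le_mul_left _ hF2
      _ = _ := by ring

theorem strong_of {s M : ℕ}
    (hM : ((s + 1) * (s + 2)).choose (2 * s + 1) * ((s + 1) * (s + 2) - 1) ^ M <
      ((s + 1) * (s + 2)) ^ M) :
    ∃ F : Finset (Fin (s + 1) ↪ Fin (s + 1 + 1)), F.card ≤ M ∧ Strong F := by
  classical
  obtain ⟨F, hF1, hF2⟩ := greedy s M
  refine ⟨F, hF1, fun P hP1 hP2 => ?_⟩
  by_contra hlt
  push Not at hlt
  have hn : 2 * s + 1 ≤ Fintype.card (Fin (s + 1) × Fin (s + 1 + 1)) := by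
    rw [Fintype.card_prod, Fintype.card_fin, Fintype.card_fin]
    nlinarith
  obtain ⟨Q, hPQ, hQ⟩ := Finset.exists_superset_card_eq (s := P) (n := 2 * s + 1) (by omega) hn
  have hmem : Q ∈ (Bad (s + 1)).filter fun P => ∀ f ∈ F, ∃ i, (i, f i) ∈ P := by
    refine mem_filter.2 ⟨mem_Bad.2 ⟨by omega, fun i => ?_⟩, fun f hf => ?_⟩
    · obtain ⟨k, hk⟩ := hP1 i
      exact ⟨k, hPQ hk⟩
    · obtain ⟨i, hi⟩ := hP2 f hf
      exact ⟨i, hPQ hi⟩
  have h1 : 1 ≤ ((Bad (s + 1)).filter fun P => ∀ f ∈ F, ∃ i, (i, f i) ∈ P).card :=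
    card_pos.2 ⟨Q, hmem⟩
  have h2 : (Bad (s + 1)).card ≤ ((s + 1) * (s + 2)).choose (2 * s + 1) := card_Bad (s + 1)
  have h3 : ((s + 1) * (s + 2)) ^ M * 1 ≤ ((s + 1) * (s + 2)) ^ M * _ :=
    Nat.mul_le_mul_left _ h1
  have h4 : ((s + 1) * (s + 2) - 1) ^ M * (Bad (s + 1)).card ≤
      ((s + 1) * (s + 2) - 1) ^ M * ((s + 1) * (s + 2)).choose (2 * s + 1) :=
    Nat.mul_le_mul_left _ h2
  rw [mul_comm (((s + 1) * (s + 2) - 1) ^ M) (((s + 1) * (s + 2)).choose (2 * s + 1))] at h4
  omega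

/-- Bernoulli. -/
theorem bern (a : ℕ) (ha : 1 ≤ a) : 2 * a ^ (a + 1) < (a + 1) ^ (a + 1) := by
  have key : ∀ n : ℕ, (a + n) * a ^ n ≤ a * (a + 1) ^ n := by
    intro n
    induction n with
    | zero => simp
    | succ n ih =>
      have h1 := Nat.mul_le_mul_right (a + 1) ih
      have h2 : (a + (n + 1)) * a ^ (n + 1) ≤ (a + n) * a ^ n * (a + 1) := by
        have h3 : (a + (n + 1)) * a ≤ (a + n) * (a + 1) := by nlinarith
        calc (a + (n + 1)) * a ^ (n + 1) = ((a + (n + 1)) * a) * a ^ n := by ring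
          _ ≤ ((a + n) * (a + 1)) * a ^ n := Nat.mul_le_mul_right _ h3
          _ = _ := by ring
      calc (a + (n + 1)) * a ^ (n + 1) ≤ (a + n) * a ^ n * (a + 1) := h2
        _ ≤ a * (a + 1) ^ n * (a + 1) := h1
        _ = a * (a + 1) ^ (n + 1) := by ring
  have h1 := key (a + 1)
  have h2 : a * (2 * a ^ (a + 1)) < a * (a + 1) ^ (a + 1) := by
    refine lt_of_lt_of_le ?_ h1
    have h3 : 0 < a ^ (a + 1) := Nat.pow_pos (by omega)
    nlinarith
  exact lt_of_mul_lt_mul_left h2 (Nat.zero_le _)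

/-- The threshold. -/
theorem threshold (k m : ℕ) (hk : 2 ≤ k) (hm : 1 ≤ m) :
    k.choose m * (k - 1) ^ (k * (m * Nat.clog 2 k)) < k ^ (k * (m * Nat.clog 2 k)) := by
  obtain ⟨a, rfl⟩ : ∃ a, k = a + 1 := ⟨k - 1, by omega⟩
  have ha : 1 ≤ a := by omega
  rw [Nat.add_sub_cancel]
  set L := m * Nat.clog 2 (a + 1) with hL
  have hL1 : 1 ≤ L := Nat.mul_pos hm (Nat.clog_pos (by norm_num) hk)
  have h1 : (a + 1).choose m ≤ 2 ^ L := by
    calc (a + 1).choose m ≤ (a + 1) ^ m := Nat.choose_le_pow _ _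
      _ ≤ (2 ^ Nat.clog 2 (a + 1)) ^ m := Nat.pow_le_pow_left (Nat.le_pow_clog (by norm_num) _) _
      _ = 2 ^ L := by rw [← pow_mul, hL, mul_comm]
  calc (a + 1).choose m * a ^ ((a + 1) * L) ≤ 2 ^ L * a ^ ((a + 1) * L) :=
        Nat.mul_le_mul_right _ h1
    _ = (2 * a ^ (a + 1)) ^ L := by rw [mul_pow, ← pow_mul]
    _ < ((a + 1) ^ (a + 1)) ^ L := Nat.pow_lt_pow_left (bern a ha) (by omega)
    _ = (a + 1) ^ ((a + 1) * L) := by rw [← pow_mul]

/-- For every number `r ≥ 2` of colours and every `n ≥ r (r - 1) (2 r - 3) ⌈log₂ (r (r - 1))⌉`, some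
`r`-edge-colouring of the balanced complete bipartite graph `K_{n,n}` has no cover by fewer than
`2 r - 2` monochromatic trees. In particular this holds for `n ≥ 4 r³ ⌈log₂ r⌉`. -/
theorem result (r n : ℕ) (hr : 2 ≤ r)
    (hn : r * (r - 1) * ((2 * r - 3) * Nat.clog 2 (r * (r - 1))) ≤ n ∨
      4 * r ^ 3 * Nat.clog 2 r ≤ n) :
    (∃ c : Sym2 (Fin n ⊕ Fin n) → Fin r, ∀ t, Coverable (K n) c t → 2 * r - 2 ≤ t) ∧
      2 * r - 2 ≤ tc r (K n) := by
  obtain ⟨s, rfl⟩ : ∃ s, r = s + 2 := ⟨r - 2, by omega⟩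
  have e1 : (s + 2) * (s + 2 - 1) = (s + 1) * (s + 2) := by
    have : s + 2 - 1 = s + 1 := by omega
    rw [this, mul_comm]
  have e2 : 2 * (s + 2) - 3 = 2 * s + 1 := by omega
  rw [e1, e2] at hn
  have hk : 2 ≤ (s + 1) * (s + 2) := by nlinarith
  have hclog : 1 ≤ Nat.clog 2 ((s + 1) * (s + 2)) := Nat.clog_pos (by norm_num) hk
  have hn' : (s + 1) * (s + 2) * ((2 * s + 1) * Nat.clog 2 ((s + 1) * (s + 2))) ≤ n := by
    rcases hn with h | h
    · exact h
    · refine le_trans ?_ h
      have h1 : Nat.clog 2 ((s + 1) * (s + 2)) ≤ 2 * Nat.clog 2 (s + 2) := by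
        refine Nat.clog_le_of_le_pow ?_
        calc (s + 1) * (s + 2) ≤ (s + 2) ^ 2 := by nlinarith
          _ ≤ (2 ^ Nat.clog 2 (s + 2)) ^ 2 :=
            Nat.pow_le_pow_left (Nat.le_pow_clog (by norm_num) _) _
          _ = 2 ^ (2 * Nat.clog 2 (s + 2)) := by rw [← pow_mul, mul_comm]
      calc (s + 1) * (s + 2) * ((2 * s + 1) * Nat.clog 2 ((s + 1) * (s + 2)))
          ≤ (s + 2) * (s + 2) * ((2 * (s + 2)) * (2 * Nat.clog 2 (s + 2))) :=
            Nat.mul_le_mul (Nat.mul_le_mul_right _ (by omega))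
              (Nat.mul_le_mul (by omega) h1)
        _ = 4 * (s + 2) ^ 3 * Nat.clog 2 (s + 2) := by ring
  obtain ⟨F, hF1, hF2⟩ := strong_of (threshold ((s + 1) * (s + 2)) (2 * s + 1) hk (by omega))
  have h2 : 2 * (s + 2) - 2 = 2 * (s + 1) := by omega
  rw [h2]
  have hsn : s + 1 ≤ n := by
    refine le_trans ?_ hn'
    have h3 : 1 ≤ (2 * s + 1) * Nat.clog 2 ((s + 1) * (s + 2)) := Nat.mul_pos (by omega) hclog
    calc s + 1 ≤ (s + 1) * (s + 2) * 1 := by nlinarith
      _ ≤ _ := Nat.mul_le_mul_left _ h3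
  obtain ⟨c, hc⟩ := not_coverable (n := n) (s := s + 1) (by omega) hsn F hF2 (hF1.trans hn')
  refine ⟨⟨c, hc⟩, ?_⟩
  have hle : 2 * (s + 1) ≤ coverNumber (K n) c :=
    hc _ (Nat.sInf_mem (s := {t | Coverable (K n) c t}) ⟨_, coverable_card (K n) c⟩)
  refine hle.trans (le_csSup ⟨Fintype.card (Fin n ⊕ Fin n), ?_⟩ ⟨c, rfl⟩)
  rintro t ⟨c', rfl⟩
  exact Nat.sInf_le (coverable_card (K n) c')

end Pool.Agent.Results.MP_6f811f_co.CubicThreshold
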